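import Pool.Agent.H501R2.BSPDefs

/-!
# Axis-aligned binary space partitions of fat axis-aligned k-flats: the counting argument
-/

namespace Pool.Agent.H501R2.BSPCore

open Finset Pool.Agent.H501R2.BSPDefs

section core

variable {d : ℕ}

/-- indices of the flats: a set of directions and a grid position -/
abbrev Idx (d : ℕ) := Σ _ : Finset (Fin d), (Fin d → ℕ)

/-- open box cells -/
def cell (l u : Fin d → EReal) : Set (Fin d → ℝ) :=
  {y | ∀ i, l i < (y i : EReal) ∧ (y i : EReal) < u i}

/-- an end of the `i`-th side of the box lies inside the grid cell of `p` -/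
def EndP (l u : Fin d → EReal) (p : Fin d → ℕ) (i : Fin d) : Prop :=
  l i < u i ∧ ((((p i : ℝ) : EReal) < l i ∧ l i < (((p i : ℝ) + 1 : ℝ) : EReal)) ∨
    (((p i : ℝ) : EReal) < u i ∧ u i < (((p i : ℝ) + 1 : ℝ) : EReal)))

/-- the directions outside `A`: the box meets `(0, N)` -/
def Rest (A : Finset (Fin d)) (N : ℕ) (l u : Fin d → EReal) : Prop :=
  ∀ i, i ∉ A → l i < u i ∧ l i < ((N : ℝ) : EReal) ∧ ((0 : ℝ) : EReal) < u i

def T1 (A : Finset (Fin d)) (k N : ℕ) (l u : Fin d → EReal) (p : Fin d → ℕ)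
    (T : Finset (Fin d)) : Prop :=
  T ⊆ A ∧ T.card < k ∧ (∀ i ∈ T, EndP l u p i) ∧
    (∀ i ∈ A, i ∉ T → l i ≤ ((p i : ℝ) : EReal) ∧ (((p i : ℝ) + 1 : ℝ) : EReal) ≤ u i) ∧
    Rest A N l u

def T2 (δ : Idx d → ℝ) (A : Finset (Fin d)) (k N : ℕ) (l u : Fin d → EReal) (p : Fin d → ℕ)
    (x : Idx d) : Prop :=
  x.1 ⊆ A ∧ x.1.card = k ∧ (x.2 = fun i => if i ∈ A \ x.1 then p i else 0) ∧
    (∀ i ∈ x.1, EndP l u p i) ∧
    (∀ i ∈ A, i ∉ x.1 → l i < (((p i : ℝ) + δ x : ℝ) : EReal) ∧
      (((p i : ℝ) + δ x : ℝ) : EReal) < u i) ∧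
    Rest A N l u

def Good (δ : Idx d → ℝ) (A : Finset (Fin d)) (k N : ℕ) (l u : Fin d → EReal)
    (p : Fin d → ℕ) : Prop :=
  (∃ T, T1 A k N l u p T) ∨ ∃ x, T2 δ A k N l u p x

def lo (δ : Idx d → ℝ) (A : Finset (Fin d)) (x : Idx d) (i : Fin d) : ℝ :=
  if i ∈ A \ x.1 then (x.2 i : ℝ) + δ x else 0

def hi (δ : Idx d → ℝ) (A : Finset (Fin d)) (N : ℕ) (x : Idx d) (i : Fin d) : ℝ :=
  if i ∈ A \ x.1 then (x.2 i : ℝ) + δ x else N

/-- the flats -/
def flat (δ : Idx d → ℝ) (A : Finset (Fin d)) (N : ℕ) (x : Idx d) : Set (Fin d → ℝ) :=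
  Set.Icc (lo δ A x) (hi δ A N x)

/-- the index set of the flats -/
def idx (A : Finset (Fin d)) (k N : ℕ) : Finset (Idx d) :=
  (powersetCard k A).sigma (fun I => Fintype.piFinset (fun i => if i ∈ A \ I then range N else {0}))

/-- the grid cells -/
def grid (A : Finset (Fin d)) (N : ℕ) : Finset (Fin d → ℕ) :=
  Fintype.piFinset (fun i => if i ∈ A then range N else {0})

theorem mem_grid {A : Finset (Fin d)} {N : ℕ} {p : Fin d → ℕ} :
    p ∈ grid A N ↔ (∀ i ∈ A, p i < N) ∧ ∀ i, i ∉ A → p i = 0 := by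
  unfold grid
  rw [Fintype.mem_piFinset]
  constructor
  · intro h
    refine ⟨fun i hi => ?_, fun i hi => ?_⟩
    · have := h i
      rw [if_pos hi] at this
      exact mem_range.1 this
    · have := h i
      rw [if_neg hi] at this
      exact mem_singleton.1 this
  · rintro ⟨h1, h2⟩ i
    by_cases hi : i ∈ A
    · rw [if_pos hi]; exact mem_range.2 (h1 i hi)
    · rw [if_neg hi]; exact mem_singleton.2 (h2 i hi)

theorem mem_idx {A : Finset (Fin d)} {k N : ℕ} {x : Idx d} :
    x ∈ idx A k N ↔ (x.1 ⊆ A ∧ x.1.card = k) ∧ (∀ i ∈ A, i ∉ x.1 → x.2 i < N) ∧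
      ∀ i, ¬ (i ∈ A ∧ i ∉ x.1) → x.2 i = 0 := by
  unfold idx
  rw [mem_sigma, mem_powersetCard, Fintype.mem_piFinset]
  refine and_congr_right fun _ => ?_
  constructor
  · intro h
    refine ⟨fun i hi hi' => ?_, fun i hi => ?_⟩
    · have := h i
      rw [if_pos (mem_sdiff.2 ⟨hi, hi'⟩)] at this
      exact mem_range.1 this
    · have := h i
      rw [if_neg (fun h' => hi (mem_sdiff.1 h'))] at this
      exact mem_singleton.1 this
  · rintro ⟨h1, h2⟩ i
    by_cases hi : i ∈ A \ x.1
    · rw [if_pos hi]; exact mem_range.2 (h1 i (mem_sdiff.1 hi).1 (mem_sdiff.1 hi).2)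
    · rw [if_neg hi]; exact mem_singleton.2 (h2 i (fun h => hi (mem_sdiff.2 h)))

theorem card_idx (A : Finset (Fin d)) (k N : ℕ) :
    (idx A k N).card = (A.card).choose k * N ^ (A.card - k) := by
  unfold idx
  rw [card_sigma]
  have : ∀ I ∈ powersetCard k A,
      (Fintype.piFinset (fun i => if i ∈ A \ I then range N else {0})).card = N ^ (A.card - k) := by
    intro I hI
    rw [mem_powersetCard] at hI
    rw [Fintype.card_piFinset]
    have h1 : ∀ i : Fin d, (if i ∈ A \ I then range N else ({0} : Finset ℕ)).card =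
        if i ∈ A \ I then N else 1 := by
      intro i; split_ifs <;> simp
    simp_rw [h1]
    rw [prod_ite_mem, univ_inter, prod_const, card_sdiff_of_subset hI.1, hI.2]
  rw [sum_congr rfl this, sum_const, card_powersetCard, smul_eq_mul]

theorem card_grid (A : Finset (Fin d)) (N : ℕ) : (grid A N).card = N ^ A.card := by
  unfold grid
  rw [Fintype.card_piFinset]
  have h1 : ∀ i : Fin d, (if i ∈ A then range N else ({0} : Finset ℕ)).card =
      if i ∈ A then N else 1 := by
    intro i; split_ifs <;> simp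
  simp_rw [h1]
  rw [prod_ite_mem, univ_inter, prod_const]

theorem cell_left (l u : Fin d → EReal) (i : Fin d) (c : ℝ) :
    cell l u ∩ {x | x i < c} = cell l (Function.update u i (min (u i) c)) := by
  ext y
  simp only [cell, Set.mem_inter_iff, Set.mem_ofPred_eq]
  constructor
  · rintro ⟨h, hc⟩ j
    refine ⟨(h j).1, ?_⟩
    by_cases hj : j = i
    · subst hj
      rw [Function.update_self]
      exact lt_min (h j).2 (by exact_mod_cast hc)
    · rw [Function.update_of_ne hj]; exact (h j).2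
  · intro h
    refine ⟨fun j => ⟨(h j).1, ?_⟩, ?_⟩
    · by_cases hj : j = i
      · subst hj
        have := (h j).2
        rw [Function.update_self] at this
        exact (lt_min_iff.1 this).1
      · have := (h j).2
        rwa [Function.update_of_ne hj] at this
    · have := (h i).2
      rw [Function.update_self] at this
      exact_mod_cast (lt_min_iff.1 this).2

theorem cell_right (l u : Fin d → EReal) (i : Fin d) (c : ℝ) :
    cell l u ∩ {x | c < x i} = cell (Function.update l i (max (l i) c)) u := by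
  ext y
  simp only [cell, Set.mem_inter_iff, Set.mem_ofPred_eq]
  constructor
  · rintro ⟨h, hc⟩ j
    refine ⟨?_, (h j).2⟩
    by_cases hj : j = i
    · subst hj
      rw [Function.update_self]
      exact max_lt (h j).1 (by exact_mod_cast hc)
    · rw [Function.update_of_ne hj]; exact (h j).1
  · intro h
    refine ⟨fun j => ⟨?_, (h j).2⟩, ?_⟩
    · by_cases hj : j = i
      · subst hj
        have := (h j).1
        rw [Function.update_self] at this
        exact (max_lt_iff.1 this).1
      · have := (h j).1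
        rwa [Function.update_of_ne hj] at this
    · have := (h i).1
      rw [Function.update_self] at this
      exact_mod_cast (max_lt_iff.1 this).2

/-! ### the counting lemma for one flat -/

theorem count_one (δ : Idx d → ℝ) (A : Finset (Fin d)) (k N : ℕ) (l u : Fin d → EReal)
    (x : Idx d) (W : Finset (Fin d → ℕ)) (hW : W ⊆ grid A N)
    (hx : ∀ p ∈ W, T2 δ A k N l u p x) : W.card ≤ 2 ^ k := by
  classical
  rcases W.eq_empty_or_nonempty with h0 | ⟨p0, hp0⟩
  · rw [h0]; simp
  have hk : x.1.card = k := (hx p0 hp0).2.1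
  rw [← hk, ← card_powerset]
  refine card_le_card_of_injOn
    (fun p => x.1.filter (fun i => ((p i : ℝ) : EReal) < l i ∧ l i < (((p i : ℝ) + 1 : ℝ) : EReal)))
    (fun p _ => mem_coe.2 (mem_powerset.2 (filter_subset _ _))) ?_
  have key : ∀ (a b : ℕ) (w : EReal), ((a : ℝ) : EReal) < w → w < (((a : ℝ) + 1 : ℝ) : EReal) →
      ((b : ℝ) : EReal) < w → w < (((b : ℝ) + 1 : ℝ) : EReal) → a = b := by
    intro a b w h1 h2 h3 h4
    have h5 : (a : ℝ) < (b : ℝ) + 1 := by exact_mod_cast h1.trans h4
    have h6 : (b : ℝ) < (a : ℝ) + 1 := by exact_mod_cast h3.trans h2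
    have h7 : a < b + 1 := by exact_mod_cast h5
    have h8 : b < a + 1 := by exact_mod_cast h6
    omega
  intro p hp p' hp' hpp
  have hp := mem_coe.1 hp
  have hp' := mem_coe.1 hp'
  funext i
  by_cases hiA : i ∈ A
  · by_cases hix : i ∈ x.1
    · have e1 := (hx p hp).2.2.2.1 i hix
      have e2 := (hx p' hp').2.2.2.1 i hix
      have hmem : (((p i : ℝ) : EReal) < l i ∧ l i < (((p i : ℝ) + 1 : ℝ) : EReal)) ↔
          (((p' i : ℝ) : EReal) < l i ∧ l i < (((p' i : ℝ) + 1 : ℝ) : EReal)) := by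
        have := congrArg (fun s => i ∈ s) hpp
        simp only [mem_filter, hix, true_and] at this
        exact iff_of_eq this
      rcases e1.2 with e1 | e1
      · have := hmem.1 e1
        exact key _ _ _ e1.1 e1.2 this.1 this.2
      · rcases e2.2 with e2 | e2
        · have := hmem.2 e2
          exact key _ _ _ this.1 this.2 e2.1 e2.2
        · exact key _ _ _ e1.1 e1.2 e2.1 e2.2
    · have e1 := (hx p hp).2.2.1
      have e2 := (hx p' hp').2.2.1
      have e3 := congrFun (e1.symm.trans e2) i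
      simp only [mem_sdiff, hiA, hix, not_false_eq_true, and_self, if_true] at e3
      exact e3
  · rw [(mem_grid.1 (hW hp)).2 i hiA, (mem_grid.1 (hW hp')).2 i hiA]

/-! ### flats meet boxes -/

theorem exists_coord {a b : EReal} {s t : ℝ} (h1 : a < b) (h2 : a < (t : EReal))
    (h3 : (s : EReal) < b) (h4 : s < t) :
    ∃ y : ℝ, a < (y : EReal) ∧ (y : EReal) < b ∧ s ≤ y ∧ y ≤ t := by
  have h : max a (s : EReal) < min b (t : EReal) := by
    refine max_lt (lt_min h1 h2) (lt_min h3 (by exact_mod_cast h4))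
  obtain ⟨y, hy1, hy2⟩ := EReal.lt_iff_exists_real_btwn.1 h
  refine ⟨y, (max_lt_iff.1 hy1).1, (lt_min_iff.1 hy2).1, ?_, ?_⟩
  · exact_mod_cast ((max_lt_iff.1 hy1).2).le
  · exact_mod_cast ((lt_min_iff.1 hy2).2).le

theorem EndP.coord {l u : Fin d → EReal} {p : Fin d → ℕ} {i : Fin d} (h : EndP l u p i)
    {N : ℕ} (hN : p i < N) :
    ∃ y : ℝ, l i < (y : EReal) ∧ (y : EReal) < u i ∧ 0 ≤ y ∧ y ≤ N := by
  have hp : ((p i : ℝ) + 1) ≤ N := by exact_mod_cast hN
  have hp0 : (0 : ℝ) ≤ p i := Nat.cast_nonneg _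
  have h4 : ∃ y : ℝ, l i < (y : EReal) ∧ (y : EReal) < u i ∧ (p i : ℝ) ≤ y ∧
      y ≤ (p i : ℝ) + 1 := by
    refine exists_coord h.1 ?_ ?_ (by linarith)
    · rcases h.2 with h' | h'
      · exact h'.2
      · exact h.1.trans h'.2
    · rcases h.2 with h' | h'
      · exact h'.1.trans h.1
      · exact h'.1
  obtain ⟨y, h1, h2, h3, h5⟩ := h4
  exact ⟨y, h1, h2, by linarith, by linarith⟩

theorem meets_T2 {δ : Idx d → ℝ} {A : Finset (Fin d)} {k N : ℕ} {l u : Fin d → EReal}
    {p : Fin d → ℕ} {x : Idx d} (hN : 0 < N) (hp : p ∈ grid A N) (h : T2 δ A k N l u p x) :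
    (flat δ A N x ∩ cell l u).Nonempty := by
  classical
  have hy : ∀ i : Fin d, ∃ y : ℝ, l i < (y : EReal) ∧ (y : EReal) < u i ∧
      lo δ A x i ≤ y ∧ y ≤ hi δ A N x i := by
    intro i
    by_cases hiA : i ∈ A
    · by_cases hix : i ∈ x.1
      · have h0 : i ∉ A \ x.1 := fun h' => (mem_sdiff.1 h').2 hix
        unfold lo hi
        rw [if_neg h0, if_neg h0]
        exact (h.2.2.2.1 i hix).coord ((mem_grid.1 hp).1 i hiA)
      · have h0 : i ∈ A \ x.1 := mem_sdiff.2 ⟨hiA, hix⟩
        unfold lo hi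
        rw [if_pos h0, if_pos h0]
        have hx2 : x.2 i = p i := by
          rw [h.2.2.1]; simp only [h0, if_true]
        rw [hx2]
        exact ⟨_, (h.2.2.2.2.1 i hiA hix).1, (h.2.2.2.2.1 i hiA hix).2, le_rfl, le_rfl⟩
    · have h0 : i ∉ A \ x.1 := fun h' => hiA (mem_sdiff.1 h').1
      unfold lo hi
      rw [if_neg h0, if_neg h0]
      have hr := h.2.2.2.2.2 i hiA
      exact exists_coord hr.1 hr.2.1 hr.2.2 (by exact_mod_cast hN)
  choose y hy1 hy2 hy3 hy4 using hy
  exact ⟨y, ⟨fun i => hy3 i, fun i => hy4 i⟩, fun i => ⟨hy1 i, hy2 i⟩⟩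

/-- from `T1` the conclusion of `T2` minus the end conditions: every flat containing the touched
directions meets the box -/
theorem meets_T1 {δ : Idx d → ℝ} {A : Finset (Fin d)} {k N : ℕ} {l u : Fin d → EReal}
    {p : Fin d → ℕ} {T : Finset (Fin d)} (hN : 0 < N) (hp : p ∈ grid A N)
    (h : T1 A k N l u p T) {I : Finset (Fin d)} (hTI : T ⊆ I)
    (hδ : ∀ x, 0 < δ x ∧ δ x < 1) :
    (flat δ A N ⟨I, fun i => if i ∈ A \ I then p i else 0⟩ ∩ cell l u).Nonempty := by
  classical
  set x : Idx d := ⟨I, fun i => if i ∈ A \ I then p i else 0⟩ with hx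
  have hx1 : x.1 = I := rfl
  have hy : ∀ i : Fin d, ∃ y : ℝ, l i < (y : EReal) ∧ (y : EReal) < u i ∧
      lo δ A x i ≤ y ∧ y ≤ hi δ A N x i := by
    intro i
    by_cases hiA : i ∈ A
    · have hpN := (mem_grid.1 hp).1 i hiA
      have hpN' : ((p i : ℝ) + 1) ≤ N := by exact_mod_cast hpN
      have hp0 : (0 : ℝ) ≤ p i := Nat.cast_nonneg _
      by_cases hiT : i ∈ T
      · have h0 : i ∉ A \ x.1 := fun h' => (mem_sdiff.1 h').2 (hTI hiT)
        unfold lo hi
        rw [if_neg h0, if_neg h0]
        exact (h.2.2.1 i hiT).coord hpN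
      · have h1 := h.2.2.2.1 i hiA hiT
        by_cases hiI : i ∈ I
        · have h0 : i ∉ A \ x.1 := fun h' => (mem_sdiff.1 h').2 hiI
          unfold lo hi
          rw [if_neg h0, if_neg h0]
          refine ⟨(p i : ℝ) + 1 / 2, ?_, ?_, by linarith, by linarith⟩
          · refine lt_of_le_of_lt h1.1 ?_
            exact_mod_cast (by linarith : (p i : ℝ) < (p i : ℝ) + 1 / 2)
          · refine lt_of_lt_of_le ?_ h1.2
            exact_mod_cast (by linarith : (p i : ℝ) + 1 / 2 < (p i : ℝ) + 1)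
        · have h0 : i ∈ A \ x.1 := mem_sdiff.2 ⟨hiA, hiI⟩
          unfold lo hi
          rw [if_pos h0, if_pos h0]
          have hx2 : x.2 i = p i := by
            show (if i ∈ A \ I then p i else 0) = p i
            rw [if_pos (mem_sdiff.2 ⟨hiA, hiI⟩)]
          rw [hx2]
          have hd := hδ x
          refine ⟨_, ?_, ?_, le_rfl, le_rfl⟩
          · refine lt_of_le_of_lt h1.1 ?_
            exact_mod_cast (by linarith : (p i : ℝ) < (p i : ℝ) + δ x)
          · refine lt_of_lt_of_le ?_ h1.2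
            exact_mod_cast (by linarith : (p i : ℝ) + δ x < (p i : ℝ) + 1)
    · have h0 : i ∉ A \ x.1 := fun h' => hiA (mem_sdiff.1 h').1
      unfold lo hi
      rw [if_neg h0, if_neg h0]
      have hr := h.2.2.2.2 i hiA
      exact exists_coord hr.1 hr.2.1 hr.2.2 (by exact_mod_cast hN)
  choose y hy1 hy2 hy3 hy4 using hy
  exact ⟨y, ⟨fun i => hy3 i, fun i => hy4 i⟩, fun i => ⟨hy1 i, hy2 i⟩⟩

/-! ### one step down the tree -/

theorem EndP.of_eq {l u l' u' : Fin d → EReal} {p : Fin d → ℕ} {i : Fin d} (h : EndP l u p i)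
    (hl : l' i = l i) (hu : u' i = u i) : EndP l' u' p i := by
  unfold EndP at *
  rw [hl, hu]; exact h

theorem T1.update {A : Finset (Fin d)} {k N : ℕ} {l u l' u' : Fin d → EReal}
    {p : Fin d → ℕ} {T : Finset (Fin d)} (h : T1 A k N l u p T) (i : Fin d)
    (hl : ∀ j, j ≠ i → l' j = l j) (hu : ∀ j, j ≠ i → u' j = u j)
    (h1 : i ∈ T → EndP l' u' p i)
    (h2 : i ∈ A → i ∉ T → l' i ≤ ((p i : ℝ) : EReal) ∧ (((p i : ℝ) + 1 : ℝ) : EReal) ≤ u' i)
    (h3 : i ∉ A → l' i < u' i ∧ l' i < ((N : ℝ) : EReal) ∧ ((0 : ℝ) : EReal) < u' i) :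
    T1 A k N l' u' p T := by
  refine ⟨h.1, h.2.1, fun j hj => ?_, fun j hj hj' => ?_, fun j hj => ?_⟩
  · by_cases hji : j = i
    · subst hji; exact h1 hj
    · exact (h.2.2.1 j hj).of_eq (hl j hji) (hu j hji)
  · by_cases hji : j = i
    · subst hji; exact h2 hj hj'
    · rw [hl j hji, hu j hji]; exact h.2.2.2.1 j hj hj'
  · by_cases hji : j = i
    · subst hji; exact h3 hj
    · rw [hl j hji, hu j hji]; exact h.2.2.2.2 j hj

theorem T2.update {δ : Idx d → ℝ} {A : Finset (Fin d)} {k N : ℕ} {l u l' u' : Fin d → EReal}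
    {p : Fin d → ℕ} {x : Idx d} (h : T2 δ A k N l u p x) (i : Fin d)
    (hl : ∀ j, j ≠ i → l' j = l j) (hu : ∀ j, j ≠ i → u' j = u j)
    (h1 : i ∈ x.1 → EndP l' u' p i)
    (h2 : i ∈ A → i ∉ x.1 → l' i < (((p i : ℝ) + δ x : ℝ) : EReal) ∧
      (((p i : ℝ) + δ x : ℝ) : EReal) < u' i)
    (h3 : i ∉ A → l' i < u' i ∧ l' i < ((N : ℝ) : EReal) ∧ ((0 : ℝ) : EReal) < u' i) :
    T2 δ A k N l' u' p x := by
  refine ⟨h.1, h.2.1, h.2.2.1, fun j hj => ?_, fun j hj hj' => ?_, fun j hj => ?_⟩
  · by_cases hji : j = i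
    · subst hji; exact h1 hj
    · exact (h.2.2.2.1 j hj).of_eq (hl j hji) (hu j hji)
  · by_cases hji : j = i
    · subst hji; exact h2 hj hj'
    · rw [hl j hji, hu j hji]; exact h.2.2.2.2.1 j hj hj'
  · by_cases hji : j = i
    · subst hji; exact h3 hj
    · rw [hl j hji, hu j hji]; exact h.2.2.2.2.2 j hj

theorem EndP.step {l u : Fin d → EReal} {p : Fin d → ℕ} {i : Fin d} (h : EndP l u p i)
    (c : EReal) :
    EndP l (Function.update u i (min (u i) c)) p i ∨
      EndP (Function.update l i (max (l i) c)) u p i := by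
  unfold EndP at *
  rw [Function.update_self, Function.update_self]
  rcases h with ⟨hlu, h | h⟩
  · -- the left end is inside
    rcases lt_or_ge (l i) c with hc | hc
    · exact Or.inl ⟨lt_min hlu hc, Or.inl h⟩
    · exact Or.inr ⟨by rw [max_eq_left hc]; exact hlu, Or.inl (by rw [max_eq_left hc]; exact h)⟩
  · rcases lt_or_ge c (u i) with hc | hc
    · exact Or.inr ⟨max_lt hlu hc, Or.inr h⟩
    · exact Or.inl ⟨by rw [min_eq_left hc]; exact hlu, Or.inr (by rw [min_eq_left hc]; exact h)⟩

theorem rest_step {N : ℕ} (hN : 0 < N) {a b : EReal} (c : EReal)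
    (h : a < b ∧ a < ((N : ℝ) : EReal) ∧ ((0 : ℝ) : EReal) < b) :
    (a < min b c ∧ a < ((N : ℝ) : EReal) ∧ ((0 : ℝ) : EReal) < min b c) ∨
      (max a c < b ∧ max a c < ((N : ℝ) : EReal) ∧ ((0 : ℝ) : EReal) < b) := by
  have h0N : ((0 : ℝ) : EReal) < ((N : ℝ) : EReal) := by
    exact_mod_cast (Nat.cast_pos.2 hN : (0 : ℝ) < N)
  obtain ⟨h1, h2, h3⟩ := h
  rcases lt_or_ge a c with hc | hc
  · rcases lt_or_ge ((0 : ℝ) : EReal) c with hc' | hc'
    · exact Or.inl ⟨lt_min h1 hc, h2, lt_min h3 hc'⟩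
    · exact Or.inr ⟨max_lt h1 (lt_of_le_of_lt hc' h3), max_lt h2 (lt_of_le_of_lt hc' h0N), h3⟩
  · exact Or.inr ⟨by rw [max_eq_left hc]; exact h1, by rw [max_eq_left hc]; exact h2, h3⟩

theorem good_step {δ : Idx d → ℝ} {A : Finset (Fin d)} {k N : ℕ} {l u : Fin d → EReal}
    {p : Fin d → ℕ} (hN : 0 < N) (hδ : ∀ x, 0 < δ x ∧ δ x < 1)
    (h : Good δ A k N l u p) (i : Fin d) (c : ℝ) :
    Good δ A k N l (Function.update u i (min (u i) c)) p ∨
      Good δ A k N (Function.update l i (max (l i) c)) u p ∨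
      ∃ x, T2 δ A k N l u p x ∧ i ∈ A ∧ i ∉ x.1 ∧ (p i : ℝ) + δ x = c := by
  classical
  have hul : ∀ j, j ≠ i → Function.update u i (min (u i) (c : EReal)) j = u j :=
    fun j hj => Function.update_of_ne hj _ _
  have hll : ∀ j, j ≠ i → Function.update l i (max (l i) (c : EReal)) j = l j :=
    fun j hj => Function.update_of_ne hj _ _
  rcases h with ⟨T, h⟩ | ⟨x, h⟩
  · by_cases hiA : i ∈ A
    · by_cases hiT : i ∈ T
      · rcases (h.2.2.1 i hiT).step c with h' | h'
        · exact Or.inl (Or.inl ⟨T, h.update i (fun _ _ => rfl) hul (fun _ => h')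
            (fun _ h2 => absurd hiT h2) (fun h3 => absurd hiA h3)⟩)
        · exact Or.inr (Or.inl (Or.inl ⟨T, h.update i hll (fun _ _ => rfl) (fun _ => h')
            (fun _ h2 => absurd hiT h2) (fun h3 => absurd hiA h3)⟩))
      · have h4 := h.2.2.2.1 i hiA hiT
        rcases le_or_gt c (p i : ℝ) with hc | hc
        · refine Or.inr (Or.inl (Or.inl ⟨T, h.update i hll (fun _ _ => rfl)
            (fun h1 => absurd h1 hiT) (fun _ _ => ⟨?_, h4.2⟩) (fun h3 => absurd hiA h3)⟩))
          rw [Function.update_self]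
          exact max_le h4.1 (by exact_mod_cast hc)
        · rcases le_or_gt ((p i : ℝ) + 1) c with hc' | hc'
          · refine Or.inl (Or.inl ⟨T, h.update i (fun _ _ => rfl) hul
              (fun h1 => absurd h1 hiT) (fun _ _ => ⟨h4.1, ?_⟩) (fun h3 => absurd hiA h3)⟩)
            rw [Function.update_self]
            exact le_min h4.2 (by exact_mod_cast hc')
          · -- the hyperplane passes through the grid cell
            have hcl : l i < (c : EReal) := lt_of_le_of_lt h4.1 (by exact_mod_cast hc)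
            have hcu : (c : EReal) < u i := lt_of_lt_of_le (by exact_mod_cast hc') h4.2
            have hend : EndP l (Function.update u i (min (u i) (c : EReal))) p i := by
              unfold EndP
              rw [Function.update_self, min_eq_right hcu.le]
              exact ⟨hcl, Or.inr ⟨by exact_mod_cast hc, by exact_mod_cast hc'⟩⟩
            have hcard : (insert i T).card = T.card + 1 := card_insert_of_notMem hiT
            have hsub : insert i T ⊆ A := insert_subset hiA h.1
            have hEnd : ∀ j ∈ insert i T,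
                EndP l (Function.update u i (min (u i) (c : EReal))) p j := by
              intro j hj
              by_cases hji : j = i
              · subst hji; exact hend
              · rcases mem_insert.1 hj with hj | hj
                · exact absurd hj hji
                · exact (h.2.2.1 j hj).of_eq rfl (hul j hji)
            have hRest : Rest A N l (Function.update u i (min (u i) (c : EReal))) := by
              intro j hj
              have hji : j ≠ i := fun h' => hj (h' ▸ hiA)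
              rw [hul j hji]; exact h.2.2.2.2 j hj
            rcases lt_or_ge (insert i T).card k with hk | hk
            · refine Or.inl (Or.inl ⟨insert i T, hsub, hk, hEnd, ?_, hRest⟩)
              intro j hj hj'
              have hji : j ≠ i := fun h' => hj' (h' ▸ mem_insert_self _ _)
              rw [hul j hji]
              exact h.2.2.2.1 j hj (fun h' => hj' (mem_insert_of_mem h'))
            · have hk' : (insert i T).card = k := by
                have := h.2.1; omega
              refine Or.inl (Or.inr ⟨⟨insert i T, fun j => if j ∈ A \ insert i T then p j else 0⟩,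
                hsub, hk', rfl, hEnd, ?_, hRest⟩)
              intro j hj hj'
              have hji : j ≠ i := fun h' => hj' (h' ▸ mem_insert_self _ _)
              have h5 := h.2.2.2.1 j hj (fun h' => hj' (mem_insert_of_mem h'))
              have hd := hδ ⟨insert i T, fun j => if j ∈ A \ insert i T then p j else 0⟩
              rw [hul j hji]
              constructor
              · refine lt_of_le_of_lt h5.1 ?_
                exact_mod_cast (lt_add_of_pos_right (p j : ℝ) hd.1)
              · refine lt_of_lt_of_le ?_ h5.2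
                exact_mod_cast (add_lt_add_right hd.2 (p j : ℝ))
    · rcases rest_step hN c (h.2.2.2.2 i hiA) with h' | h'
      · refine Or.inl (Or.inl ⟨T, h.update i (fun _ _ => rfl) hul
          (fun h1 => absurd (h.1 h1) hiA) (fun h2 => absurd h2 hiA) (fun _ => ?_)⟩)
        rw [Function.update_self]; exact h'
      · refine Or.inr (Or.inl (Or.inl ⟨T, h.update i hll (fun _ _ => rfl)
          (fun h1 => absurd (h.1 h1) hiA) (fun h2 => absurd h2 hiA) (fun _ => ?_)⟩))
        rw [Function.update_self]; exact h'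
  · by_cases hiA : i ∈ A
    · by_cases hix : i ∈ x.1
      · rcases (h.2.2.2.1 i hix).step c with h' | h'
        · exact Or.inl (Or.inr ⟨x, h.update i (fun _ _ => rfl) hul (fun _ => h')
            (fun _ h2 => absurd hix h2) (fun h3 => absurd hiA h3)⟩)
        · exact Or.inr (Or.inl (Or.inr ⟨x, h.update i hll (fun _ _ => rfl) (fun _ => h')
            (fun _ h2 => absurd hix h2) (fun h3 => absurd hiA h3)⟩))
      · have h4 := h.2.2.2.2.1 i hiA hix
        rcases lt_trichotomy c ((p i : ℝ) + δ x) with hc | hc | hc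
        · refine Or.inr (Or.inl (Or.inr ⟨x, h.update i hll (fun _ _ => rfl)
            (fun h1 => absurd h1 hix) (fun _ _ => ⟨?_, h4.2⟩) (fun h3 => absurd hiA h3)⟩))
          rw [Function.update_self]
          exact max_lt h4.1 (by exact_mod_cast hc)
        · exact Or.inr (Or.inr ⟨x, h, hiA, hix, hc.symm⟩)
        · refine Or.inl (Or.inr ⟨x, h.update i (fun _ _ => rfl) hul
            (fun h1 => absurd h1 hix) (fun _ _ => ⟨h4.1, ?_⟩) (fun h3 => absurd hiA h3)⟩)
          rw [Function.update_self]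
          exact lt_min h4.2 (by exact_mod_cast hc)
    · rcases rest_step hN c (h.2.2.2.2.2 i hiA) with h' | h'
      · refine Or.inl (Or.inr ⟨x, h.update i (fun _ _ => rfl) hul
          (fun h1 => absurd (h.1 h1) hiA) (fun h2 => absurd h2 hiA) (fun _ => ?_)⟩)
        rw [Function.update_self]; exact h'
      · refine Or.inr (Or.inl (Or.inr ⟨x, h.update i hll (fun _ _ => rfl)
          (fun h1 => absurd (h.1 h1) hiA) (fun h2 => absurd h2 hiA) (fun _ => ?_)⟩))
        rw [Function.update_self]; exact h'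

/-! ### disjointness -/

theorem frac_eq {a b : ℕ} {s t : ℝ} (hs : 0 < s ∧ s < 1) (ht : 0 < t ∧ t < 1)
    (h : (a : ℝ) + s = (b : ℝ) + t) : a = b ∧ s = t := by
  have h1 : (a : ℝ) < (b : ℝ) + 1 := by linarith [hs.1, ht.2]
  have h2 : (b : ℝ) < (a : ℝ) + 1 := by linarith [hs.2, ht.1]
  have h3 : a < b + 1 := by exact_mod_cast h1
  have h4 : b < a + 1 := by exact_mod_cast h2
  have h5 : a = b := by omega
  subst h5
  exact ⟨rfl, by linarith⟩

theorem flat_disjoint {δ : Idx d → ℝ} {A : Finset (Fin d)} {k N : ℕ} (hk : 2 * k < A.card)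
    (hδ : ∀ x, 0 < δ x ∧ δ x < 1) (hinj : Function.Injective δ) {x y : Idx d}
    (hx : x.1.card = k) (hy : y.1.card = k) {z : Fin d → ℝ} (hzx : z ∈ flat δ A N x)
    (hzy : z ∈ flat δ A N y) : x = y := by
  classical
  have : ∃ i ∈ A, i ∉ x.1 ∪ y.1 := by
    by_contra hcon
    push Not at hcon
    have h1 : A.card ≤ (x.1 ∪ y.1).card := card_le_card hcon
    have h2 := card_union_le x.1 y.1
    omega
  obtain ⟨i, hiA, hiu⟩ := this
  have hix : i ∈ A \ x.1 := mem_sdiff.2 ⟨hiA, fun h => hiu (mem_union_left _ h)⟩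
  have hiy : i ∈ A \ y.1 := mem_sdiff.2 ⟨hiA, fun h => hiu (mem_union_right _ h)⟩
  have h1 := hzx.1 i
  have h2 := hzx.2 i
  have h3 := hzy.1 i
  have h4 := hzy.2 i
  unfold lo at h1 h3
  unfold hi at h2 h4
  rw [if_pos hix] at h1 h2
  rw [if_pos hiy] at h3 h4
  have h5 : (x.2 i : ℝ) + δ x = (y.2 i : ℝ) + δ y :=
    (le_antisymm h1 h2).trans (le_antisymm h3 h4).symm
  exact hinj (frac_eq (hδ x) (hδ y) h5).2

/-- the family of flats -/
def flats (δ : Idx d → ℝ) (A : Finset (Fin d)) (k N : ℕ) : Set (Set (Fin d → ℝ)) :=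
  flat δ A N '' (idx A k N : Set (Idx d))

theorem T2.mem_idx {δ : Idx d → ℝ} {A : Finset (Fin d)} {k N : ℕ} {l u : Fin d → EReal}
    {p : Fin d → ℕ} {x : Idx d} (hp : p ∈ grid A N) (h : T2 δ A k N l u p x) :
    x ∈ idx A k N := by
  rw [BSPCore.mem_idx]
  refine ⟨⟨h.1, h.2.1⟩, fun i hi hi' => ?_, fun i hi => ?_⟩
  · rw [h.2.2.1]
    show (if i ∈ A \ x.1 then p i else 0) < N
    rw [if_pos (mem_sdiff.2 ⟨hi, hi'⟩)]
    exact (mem_grid.1 hp).1 i hi
  · rw [h.2.2.1]
    show (if i ∈ A \ x.1 then p i else 0) = 0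
    rw [if_neg (fun h' => hi (mem_sdiff.1 h'))]

open Classical in
theorem count_le {δ : Idx d → ℝ} {A : Finset (Fin d)} {k N : ℕ} (hN : 0 < N)
    (hk : 2 * k < A.card) (hδ : ∀ x, 0 < δ x ∧ δ x < 1) (hinj : Function.Injective δ)
    (t : BSP d) : ∀ l u : Fin d → EReal, t.Valid (flats δ A k N) (cell l u) →
      ((grid A N).filter (fun p => Good δ A k N l u p)).card ≤ 2 ^ k * t.size := by
  induction t with
  | leaf =>
    intro l u hv
    show _ ≤ 2 ^ k * 1
    rw [mul_one]
    -- no `T1`
    have hT1 : ∀ p ∈ grid A N, ∀ T, ¬ T1 A k N l u p T := by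
      intro p hp T hT
      obtain ⟨I, hTI, hIA, hIk⟩ := exists_subsuperset_card_eq hT.1 hT.2.1.le
        (by omega : k ≤ A.card)
      obtain ⟨i, hiI, hiT⟩ : ∃ i ∈ I, i ∉ T := by
        by_contra hcon
        push Not at hcon
        have := card_le_card (show I ⊆ T from hcon)
        have := hT.2.1
        omega
      obtain ⟨j, hjA, hjI⟩ : ∃ j ∈ A, j ∉ I := by
        by_contra hcon
        push Not at hcon
        have := card_le_card (show A ⊆ I from hcon)
        omega
      have hJk : (insert j (I.erase i)).card = k := by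
        rw [card_insert_of_notMem (fun h => hjI (mem_of_mem_erase h)), card_erase_of_mem hiI]
        have : 0 < I.card := card_pos.2 ⟨i, hiI⟩
        omega
      have hJA : insert j (I.erase i) ⊆ A :=
        insert_subset hjA ((erase_subset _ _).trans hIA)
      have hTJ : T ⊆ insert j (I.erase i) := by
        intro a ha
        exact mem_insert_of_mem (mem_erase.2 ⟨fun h => hiT (h ▸ ha), hTI ha⟩)
      have mem : ∀ J : Finset (Fin d), J ⊆ A → J.card = k →
          (⟨J, fun i => if i ∈ A \ J then p i else 0⟩ : Idx d) ∈ idx A k N := by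
        intro J hJ1 hJ2
        rw [BSPCore.mem_idx]
        refine ⟨⟨hJ1, hJ2⟩, fun i hi hi' => ?_, fun i hi => ?_⟩
        · show (if i ∈ A \ J then p i else 0) < N
          rw [if_pos (mem_sdiff.2 ⟨hi, hi'⟩)]
          exact (mem_grid.1 hp).1 i hi
        · show (if i ∈ A \ J then p i else 0) = 0
          rw [if_neg (fun h' => hi (mem_sdiff.1 h'))]
      have m1 := meets_T1 (δ := δ) hN hp hT hTI hδ
      have m2 := meets_T1 (δ := δ) hN hp hT hTJ hδ
      have heq := hv _ (Set.mem_image_of_mem _ (mem_coe.2 (mem I hIA hIk))) _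
        (Set.mem_image_of_mem _ (mem_coe.2 (mem _ hJA hJk))) m1 m2
      obtain ⟨z, hz, _⟩ := m1
      have := flat_disjoint hk hδ hinj hIk hJk hz (heq ▸ hz)
      have := congrArg Sigma.fst this
      exact hiT (by
        have h1 : i ∈ insert j (I.erase i) := by
          have h2 : I = insert j (I.erase i) := this
          rw [← h2]; exact hiI
        rcases mem_insert.1 h1 with h1 | h1
        · exact absurd (h1 ▸ hiI) hjI
        · exact absurd rfl (mem_erase.1 h1).1)
    have hT2 : ∀ p ∈ (grid A N).filter (fun p => Good δ A k N l u p), ∃ x, T2 δ A k N l u p x := by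
      intro p hp
      rw [mem_filter] at hp
      rcases hp.2 with ⟨T, hT⟩ | h
      · exact absurd hT (hT1 p hp.1 T)
      · exact h
    rcases ((grid A N).filter (fun p => Good δ A k N l u p)).eq_empty_or_nonempty with h0 | ⟨q, hq⟩
    · rw [h0]; simp
    · obtain ⟨x, hx⟩ := hT2 q hq
      refine count_one δ A k N l u x _ (filter_subset _ _) ?_
      intro p hp
      obtain ⟨y, hy⟩ := hT2 p hp
      have hpg := (mem_filter.1 hp).1
      have hqg := (mem_filter.1 hq).1
      have m1 := meets_T2 hN hqg hx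
      have m2 := meets_T2 hN hpg hy
      have heq := hv _ (Set.mem_image_of_mem _ (mem_coe.2 (hx.mem_idx hqg))) _
        (Set.mem_image_of_mem _ (mem_coe.2 (hy.mem_idx hpg))) m1 m2
      obtain ⟨z, hz, _⟩ := m1
      have : x = y := flat_disjoint hk hδ hinj hx.2.1 hy.2.1 hz (heq ▸ hz)
      rw [this]; exact hy
  | node i c L R ihL ihR =>
    intro l u hv
    have hvL := hv.1
    have hvR := hv.2
    rw [cell_left] at hvL
    rw [cell_right] at hvR
    have h1 := ihL _ _ hvL
    have h2 := ihR _ _ hvR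
    have h3 : ((grid A N).filter
        (fun p => ∃ x, T2 δ A k N l u p x ∧ i ∈ A ∧ i ∉ x.1 ∧ (p i : ℝ) + δ x = c)).card
          ≤ 2 ^ k := by
      rcases ((grid A N).filter (fun p => ∃ x, T2 δ A k N l u p x ∧ i ∈ A ∧ i ∉ x.1 ∧
        (p i : ℝ) + δ x = c)).eq_empty_or_nonempty with h0 | ⟨q, hq⟩
      · rw [h0]; simp
      · obtain ⟨hqg, x, hx, _, _, hxc⟩ := mem_filter.1 hq
        refine count_one δ A k N l u x _ (filter_subset _ _) ?_
        intro p hp
        obtain ⟨hpg, y, hy, _, _, hyc⟩ := mem_filter.1 hp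
        have : x = y := hinj (frac_eq (hδ x) (hδ y) (hxc.trans hyc.symm)).2
        rw [this]; exact hy
    have hsub : (grid A N).filter (fun p => Good δ A k N l u p) ⊆
        ((grid A N).filter
          (fun p => Good δ A k N l (Function.update u i (min (u i) (c : EReal))) p)) ∪
        (((grid A N).filter
          (fun p => Good δ A k N (Function.update l i (max (l i) (c : EReal))) u p)) ∪
        ((grid A N).filter
          (fun p => ∃ x, T2 δ A k N l u p x ∧ i ∈ A ∧ i ∉ x.1 ∧ (p i : ℝ) + δ x = c))) := by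
      intro p hp
      obtain ⟨hpg, hpG⟩ := mem_filter.1 hp
      rcases good_step hN hδ hpG i c with h | h | h
      · exact mem_union_left _ (mem_filter.2 ⟨hpg, h⟩)
      · exact mem_union_right _ (mem_union_left _ (mem_filter.2 ⟨hpg, h⟩))
      · exact mem_union_right _ (mem_union_right _ (mem_filter.2 ⟨hpg, h⟩))
    have h4 := card_le_card hsub
    have h5 := card_union_le ((grid A N).filter
          (fun p => Good δ A k N l (Function.update u i (min (u i) (c : EReal))) p))
        (((grid A N).filter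
          (fun p => Good δ A k N (Function.update l i (max (l i) (c : EReal))) u p)) ∪
        ((grid A N).filter
          (fun p => ∃ x, T2 δ A k N l u p x ∧ i ∈ A ∧ i ∉ x.1 ∧ (p i : ℝ) + δ x = c)))
    have h6 := card_union_le ((grid A N).filter
          (fun p => Good δ A k N (Function.update l i (max (l i) (c : EReal))) u p))
        ((grid A N).filter
          (fun p => ∃ x, T2 δ A k N l u p x ∧ i ∈ A ∧ i ∉ x.1 ∧ (p i : ℝ) + δ x = c))
    show _ ≤ 2 ^ k * (1 + L.size + R.size)
    nlinarith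

end core

end Pool.Agent.H501R2.BSPCore
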