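import Mathlib

/-!
# Axis-aligned binary space partitions of fat axis-aligned k-flats: definitions
-/

namespace Pool.Agent.H501R2.BSPDefs

open Finset

/-- `r` is an axis-aligned `k`-flat in `ℝ^d` (a box `[lo, hi]` with exactly `k` factors of
positive length, the others being points) which is `α`-fat: each extent is at most `α` times
every other extent. -/
def IsFatFlat (d k : ℕ) (α : ℝ) (r : Set (Fin d → ℝ)) : Prop :=
  ∃ lo hi : Fin d → ℝ, (∀ i, lo i ≤ hi i) ∧ r = Set.Icc lo hi ∧
    (univ.filter (fun i => lo i < hi i)).card = k ∧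
    ∀ i j, lo i < hi i → lo j < hi j → hi i - lo i ≤ α * (hi j - lo j)

/-- Rooted binary trees whose internal nodes carry an axis-aligned hyperplane `x_i = c`. -/
inductive BSP (d : ℕ) : Type
  | leaf : BSP d
  | node : Fin d → ℝ → BSP d → BSP d → BSP d

/-- the number of nodes (internal nodes and leaves) -/
def BSP.size {d : ℕ} : BSP d → ℕ
  | BSP.leaf => 1
  | BSP.node _ _ L R => 1 + L.size + R.size

/-- `t.Valid S C`: the tree `t`, with root cell `C`, is a binary space partition for `S`.
The cell `C` of an internal node with hyperplane `x_i = c` is split into the two open cells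
`C ∩ {x_i < c}` and `C ∩ {c < x_i}` (what lies in the hyperplane is stored at the node), and the
cell of each leaf meets at most one of the objects. -/
def BSP.Valid {d : ℕ} (S : Set (Set (Fin d → ℝ))) : BSP d → Set (Fin d → ℝ) → Prop
  | BSP.leaf, C => ∀ r ∈ S, ∀ s ∈ S, (r ∩ C).Nonempty → (s ∩ C).Nonempty → r = s
  | BSP.node i c L R, C => L.Valid S (C ∩ {x | x i < c}) ∧ R.Valid S (C ∩ {x | c < x i})

/-- The axis-aligned partition complexity: the supremum, over all sets of `n` pairwise disjoint
`α`-fat axis-aligned `k`-flats in `ℝ^d`, of the least size of an axis-aligned BSP. -/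
noncomputable def piPerp (d k : ℕ) (α : ℝ) (n : ℕ) : ℕ∞ :=
  ⨆ S ∈ {S : Finset (Set (Fin d → ℝ)) | S.card = n ∧
      (S : Set (Set (Fin d → ℝ))).PairwiseDisjoint id ∧ ∀ r ∈ S, IsFatFlat d k α r},
    ⨅ t ∈ {t : BSP d | t.Valid (S : Set (Set (Fin d → ℝ))) Set.univ}, (t.size : ℕ∞)

end Pool.Agent.H501R2.BSPDefs
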